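import Pool.Agent.H5.Overlap

set_option autoImplicit false

namespace Pool.Agent.Results.MP_81fdd0_co.Counter

open Pool.Agent.H5.OverlapDefs

theorem result : ∃ (r : ℕ) (V : Set (FreeGroup (Fin r))), 2 ≤ r ∧ (∀ w ∈ V, w⁻¹ ∈ V) ∧
    (∀ w ∈ V, NonSelfOverlapping w) ∧
    (∀ K : Finset (FreeGroup (Fin r)), ↑K ⊆ V →
      (K : Set (FreeGroup (Fin r))).Pairwise Adj → K.card ≤ 2) ∧
    ∀ n : ℕ, ∃ f : Fin n → FreeGroup (Fin r), (∀ i, f i ∈ V) ∧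
      ∀ i j, i ≠ j → QAdj (f i) (f j) :=
  H5.Overlap.main

end Pool.Agent.Results.MP_81fdd0_co.Counter
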